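import Pool.Agent.Helper20.RG.St1

/-! # RG module WC -/

set_option autoImplicit false

open MeasureTheory Set Filter Topology
open scoped ENNReal RealInnerProductSpace

namespace Pool.Agent.Helper75.RG

open Pool.Agent.Helper20.RG
open Pool.Agent.Helper68.LM (Pl BB Bd Av HL ft fm DQ)

theorem wc_self (b : ℤ) (x : Pl) : x ∈ DQ b x := fun _ => rfl

theorem wc_sat (b : ℤ) (A : Set Pl) (x : Pl) (hx : x ∈ ⋃ y ∈ A, DQ b y) :
    DQ b x ⊆ ⋃ y ∈ A, DQ b y := by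
  simp only [mem_iUnion] at hx ⊢
  obtain ⟨y, hy, hxy⟩ := hx
  intro z hz
  simp only [mem_iUnion]
  exact ⟨y, hy, fun i => (hz i).trans (hxy i)⟩

theorem hWC (hWA : StWA) (hWB : StWB) : StWC := by
  intro n N a γ r₁ r₂ S G D₀ hn hD hS hr hG
  obtain ⟨U₁, hU₁⟩ : ∃ U : ℕ → Set Pl, U = fun i : ℕ =>
    ⋃ x ∈ {x | x ∈ G ∧ ¬ Dens (S i) N x (r₁ i) (64 * D₀)}, DQ (a - ((i : ℤ) + 1) * γ) x := ⟨_, rfl⟩
  obtain ⟨U₂, hU₂⟩ : ∃ U : ℕ → Set Pl, U = fun i : ℕ =>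
    ⋃ x ∈ {x | x ∈ G ∧ ¬ Dens (S i) N x (r₂ i) (64 * D₀)}, DQ (a - ((i : ℤ) + 1) * γ) x := ⟨_, rfl⟩
  have hγ : ∀ i : ℕ, a - ((i : ℤ) + 1) * γ ≤ a - (i : ℤ) * γ := by
    intro i
    have : (0 : ℤ) ≤ γ := Int.natCast_nonneg γ
    nlinarith
  have hB₁ : ∀ i < n, volume (U₁ i) ≤
      ENNReal.ofReal (16 / (64 * D₀)) * ∑ j ∈ Finset.range N, volume (S i j) ∧
      ∀ x₀ : Pl, volume (U₁ i ∩ DQ (a - (i : ℤ) * γ) x₀) ≤
        ENNReal.ofReal (16 * D₀ / (64 * D₀)) * volume (DQ (a - (i : ℤ) * γ) x₀) := by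
    intro i hi
    rw [hU₁]
    exact hWB N (a - (i : ℤ) * γ) (a - ((i : ℤ) + 1) * γ) (r₁ i) (64 * D₀) D₀ (S i) G (hγ i)
      (hr i hi).1 (hr i hi).2.1 (by positivity) hD.le (hS i hi) (hG i hi)
  have hB₂ : ∀ i < n, volume (U₂ i) ≤
      ENNReal.ofReal (16 / (64 * D₀)) * ∑ j ∈ Finset.range N, volume (S i j) ∧
      ∀ x₀ : Pl, volume (U₂ i ∩ DQ (a - (i : ℤ) * γ) x₀) ≤
        ENNReal.ofReal (16 * D₀ / (64 * D₀)) * volume (DQ (a - (i : ℤ) * γ) x₀) := by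
    intro i hi
    rw [hU₂]
    exact hWB N (a - (i : ℤ) * γ) (a - ((i : ℤ) + 1) * γ) (r₂ i) (64 * D₀) D₀ (S i) G (hγ i)
      (hr i hi).2.2.1 (hr i hi).2.2.2 (by positivity) hD.le (hS i hi) (hG i hi)
  have e1 : 16 * D₀ / (64 * D₀) = 1 / 4 := by
    field_simp
    norm_num
  have e2 : 16 / (64 * D₀) = 1 / (4 * D₀) := by
    field_simp
    norm_num
  rw [e1, e2] at hB₁ hB₂
  have h1 := hWA n a γ (fun i => U₁ i ∪ U₂ i) hn ?_ ?_
  · -- conclusion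
    have hsub : {x | x ∈ G ∧ ∀ i < n, ¬ (Dens (S i) N x (r₁ i) (64 * D₀) ∧
        Dens (S i) N x (r₂ i) (64 * D₀))} ⊆ {x | ∀ i < n, x ∈ U₁ i ∪ U₂ i} := by
      intro x hx i hi
      obtain ⟨hxG, hx⟩ := hx
      by_cases h : Dens (S i) N x (r₁ i) (64 * D₀)
      · refine Or.inr ?_
        have h2 : ¬ Dens (S i) N x (r₂ i) (64 * D₀) := fun h2 => hx i hi ⟨h, h2⟩
        rw [hU₂]
        simp only [mem_iUnion]
        exact ⟨x, ⟨hxG, h2⟩, wc_self _ x⟩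
      · refine Or.inl ?_
        rw [hU₁]
        simp only [mem_iUnion]
        exact ⟨x, ⟨hxG, h⟩, wc_self _ x⟩
    refine (measure_mono hsub).trans (h1.trans ?_)
    have h3 : volume (U₁ 0 ∪ U₂ 0) ≤
        ENNReal.ofReal (1 / (2 * D₀)) * ∑ j ∈ Finset.range N, volume (S 0 j) := by
      refine (measure_union_le _ _).trans ?_
      refine (add_le_add (hB₁ 0 hn).1 (hB₂ 0 hn).1).trans (le_of_eq ?_)
      rw [← add_mul, ← ENNReal.ofReal_add (by positivity) (by positivity)]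
      congr 2
      field_simp
      norm_num
    refine (mul_le_mul_right h3 _).trans (le_of_eq ?_)
    rw [← mul_assoc, ← ENNReal.ofReal_mul (by positivity)]
    congr 2
    obtain ⟨k, rfl⟩ : ∃ k, n = k + 1 := ⟨n - 1, by omega⟩
    rw [Nat.add_sub_cancel, pow_succ]
    field_simp
  · intro i hi x hx
    rcases hx with hx | hx
    · refine Subset.trans ?_ subset_union_left
      rw [hU₁] at hx ⊢
      exact wc_sat _ _ x hx
    · refine Subset.trans ?_ subset_union_right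
      rw [hU₂] at hx ⊢
      exact wc_sat _ _ x hx
  · intro i hi x
    rw [union_inter_distrib_right]
    refine (measure_union_le _ _).trans ?_
    refine (add_le_add ((hB₁ i hi).2 x) ((hB₂ i hi).2 x)).trans (le_of_eq ?_)
    rw [← add_mul, ← ENNReal.ofReal_add (by norm_num) (by norm_num)]
    norm_num

end Pool.Agent.Helper75.RG
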